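import Mathlib
import Pool.Agent.H.MP_69c6fe_co.UpperMain
import Pool.Agent.H.MP_69c6fe_co.LowerEdges

/-!
# The inverse Turán number of even paths

For every `t ≥ 2` the inverse Turán number of the path with `2t` edges satisfies
`ex⁻¹(k, P_{2t}) = k² / (2 t (t - 1)) + o(k²)`.
-/

namespace Pool.Agent.Results.MP_69c6fe_co.InverseTuranEvenPaths

open Filter Topology SimpleGraph Finset

/-- `ex(G, F)`: the maximum number of edges of a subgraph of `G` containing no copy of `F`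
(not necessarily induced), for a finite host graph `G`. -/
noncomputable def ex {n : ℕ} {W : Type*} (G : SimpleGraph (Fin n)) (F : SimpleGraph W) : ℕ :=
  sSup {m : ℕ | ∃ H : SimpleGraph (Fin n), H ≤ G ∧ F.Free H ∧ m = H.edgeSet.ncard}

/-- the inverse Turán number: the supremum of the numbers of edges of the finite graphs `G` with
`ex(G, F) < k` -/
noncomputable def exInv {W : Type*} (k : ℕ) (F : SimpleGraph W) : ℕ∞ :=
  ⨆ (n : ℕ) (G : SimpleGraph (Fin n)) (_ : ex G F < k), (G.edgeSet.ncard : ℕ∞)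

/-- `P_ℓ`, the path with `ℓ` edges -/
abbrev P (l : ℕ) : SimpleGraph (Fin (l + 1)) := pathGraph (l + 1)

theorem ex_bdd {n : ℕ} {W : Type*} (G : SimpleGraph (Fin n)) (F : SimpleGraph W) :
    BddAbove {m : ℕ | ∃ H : SimpleGraph (Fin n), H ≤ G ∧ F.Free H ∧ m = H.edgeSet.ncard} := by
  refine ⟨G.edgeSet.ncard, ?_⟩
  rintro m ⟨H, hH, _, rfl⟩
  exact Set.ncard_le_ncard (edgeSet_mono hH) (Set.toFinite _)

theorem exInv_mono {W : Type*} {k k' : ℕ} (h : k ≤ k') (F : SimpleGraph W) :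
    exInv k F ≤ exInv k' F := by
  unfold exInv
  refine iSup_mono fun n => iSup_mono fun G => ?_
  exact iSup_le fun hG => le_iSup_of_le (hG.trans_le h) le_rfl

/-- the bound for all large `k` -/
theorem upper {t : ℕ} (ht : 2 ≤ t) {ε : ℝ} (hε : 0 < ε) : ∃ k₀ : ℕ, ∀ k ≥ k₀,
    exInv k (P (2 * t)) ≤ ((⌊(1 / (2 * t * (t - 1)) + ε) * (k : ℝ) ^ 2⌋₊ : ℕ) : ℕ∞) := by
  obtain ⟨k₀, hk₀⟩ := Pool.Agent.H.MP_69c6fe_co.upper_main ht hε
  refine ⟨k₀, fun k hk => ?_⟩
  unfold exInv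
  refine iSup_le fun n => iSup_le fun G => iSup_le fun hG => ?_
  have h1 := hk₀ k hk (Fin n) G (by
    rintro r ⟨H, hH, _, hfree, hr⟩
    have h2 : H.edgeSet.ncard ≤ ex G (P (2 * t)) := le_csSup (ex_bdd G _) ⟨H, hH, hfree, rfl⟩
    have h3 : (H.edgeSet.ncard : ℝ) < k := by exact_mod_cast h2.trans_lt hG
    linarith)
  have h4 : G.edgeSet.ncard ≤ ⌊(1 / (2 * t * (t - 1)) + ε) * (k : ℝ) ^ 2⌋₊ := Nat.le_floor h1
  exact_mod_cast h4

/-- The Turán graph is a good host. -/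
theorem lower {t : ℕ} (ht : 2 ≤ t) {k : ℕ} (hk : 1 ≤ k) :
    (((turanGraph (t * ((k - 1) / (t * (t - 1)))) t).edgeSet.ncard : ℕ) : ℕ∞) ≤
      exInv k (P (2 * t)) := by
  set q := (k - 1) / (t * (t - 1)) with hq
  unfold exInv
  refine le_iSup_of_le (t * q) (le_iSup_of_le (turanGraph (t * q) t) (le_iSup_of_le ?_ le_rfl))
  have h1 : ex (turanGraph (t * q) t) (P (2 * t)) ≤ (t - 1) * (t * q) := by
    apply csSup_le
    · refine ⟨0, ⊥, bot_le, ?_, by simp⟩
      apply free_bot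
      intro h
      have h2 : (P (2 * t)).Adj ⟨0, by omega⟩ ⟨1, by omega⟩ := by
        rw [pathGraph_adj]
        left
        rfl
      rw [h] at h2
      exact h2
    · rintro m ⟨H, hH, hfree, rfl⟩
      have h2 := Pool.Agent.H.MP_69c6fe_co.lower_edges H ht
        (fun v => (⟨v.1 % t, Nat.mod_lt _ (by omega)⟩ : Fin t)) (by
          intro x y hxy h
          have h3 : (turanGraph (t * q) t).Adj x y := hH hxy
          exact h3 (Fin.mk.inj_iff.mp h)) hfree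
      rwa [Fintype.card_fin] at h2
  have h2 : (t - 1) * (t * q) ≤ k - 1 := by
    have := Nat.div_mul_le_self (k - 1) (t * (t - 1))
    rw [← hq] at this
    calc (t - 1) * (t * q) = q * (t * (t - 1)) := by ring
      _ ≤ k - 1 := this
  omega

theorem turan_edges {t : ℕ} (ht : 2 ≤ t) (q : ℕ) :
    (t : ℝ) * (t - 1) * q ^ 2 / 2 - 1 ≤ ((turanGraph (t * q) t).edgeSet.ncard : ℝ) := by
  classical
  have h1 : (turanGraph (t * q) t).edgeSet.ncard = #(turanGraph (t * q) t).edgeFinset := by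
    rw [← coe_edgeFinset, Set.ncard_coe_finset]
  rw [h1, card_edgeFinset_turanGraph]
  simp only [Nat.mul_mod_right]
  have h2 : ((t * q) ^ 2 - 0 ^ 2) * (t - 1) / (2 * t) + Nat.choose 0 2 =
      (t * q) ^ 2 * (t - 1) / (2 * t) := by simp
  rw [h2]
  have h3 := Nat.lt_div_mul_add (a := (t * q) ^ 2 * (t - 1)) (b := 2 * t) (by omega)
  have h4 : (((t * q) ^ 2 * (t - 1) : ℕ) : ℝ) <
      (((t * q) ^ 2 * (t - 1) / (2 * t) : ℕ) : ℝ) * (2 * t) + 2 * t := by exact_mod_cast h3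
  rw [Nat.cast_mul, Nat.cast_sub (by omega)] at h4
  push_cast at h4
  have ht0 : (0 : ℝ) < t := by
    have : 0 < t := by omega
    exact_mod_cast this
  have h5 : ((t : ℝ) * (t - 1) * q ^ 2 / 2 - 1) * (2 * t) <
      (((t * q) ^ 2 * (t - 1) / (2 * t) : ℕ) : ℝ) * (2 * t) := by
    push_cast
    linarith
  exact (lt_of_mul_lt_mul_right h5 (by positivity)).le

/-- For every `t ≥ 2`, all the inverse Turán numbers of `P_{2t}` are finite, and
`ex⁻¹(k, P_{2t}) / k² → 1 / (2 t (t - 1))` as `k → ∞`. -/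
theorem result (t : ℕ) (ht : 2 ≤ t) :
    (∀ k, exInv k (P (2 * t)) ≠ ⊤) ∧
    Tendsto (fun k : ℕ => ((exInv k (P (2 * t))).toNat : ℝ) / (k : ℝ) ^ 2) atTop
      (𝓝 (1 / (2 * t * (t - 1)))) := by
  have hfin : ∀ k, exInv k (P (2 * t)) ≠ ⊤ := by
    intro k
    obtain ⟨k₀, hk₀⟩ := upper ht one_pos
    have h1 := (exInv_mono (le_max_left k k₀) (P (2 * t))).trans (hk₀ _ (le_max_right k k₀))
    exact ne_top_of_le_ne_top (ENat.natCast_ne_top _) h1
  refine ⟨hfin, ?_⟩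
  have ht2 : (2 : ℝ) ≤ t := by exact_mod_cast ht
  have htt : (0 : ℝ) < 2 * t * (t - 1) := by nlinarith
  rw [Metric.tendsto_atTop]
  intro ε hε
  obtain ⟨k₀, hk₀⟩ := upper ht (half_pos hε)
  refine ⟨max k₀ (⌈(3 + (t : ℝ) ^ 2) / ε⌉₊ + 1), ?_⟩
  intro k hk
  have hk1 : k₀ ≤ k := (le_max_left _ _).trans hk
  have hk2 : ⌈(3 + (t : ℝ) ^ 2) / ε⌉₊ + 1 ≤ k := (le_max_right _ _).trans hk
  have hkpos : (0 : ℝ) < k := by
    have : 0 < k := by omega
    exact_mod_cast this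
  have hkε : (3 + (t : ℝ) ^ 2) / ε < k := by
    refine (Nat.le_ceil _).trans_lt ?_
    exact_mod_cast (by omega : ⌈(3 + (t : ℝ) ^ 2) / ε⌉₊ < k)
  rw [div_lt_iff₀ hε] at hkε
  rw [Real.dist_eq, abs_lt]
  constructor
  · -- lower bound
    have h1 := lower ht (k := k) (by omega)
    set q := (k - 1) / (t * (t - 1)) with hq
    have h2 := turan_edges ht q
    have h3 : (turanGraph (t * q) t).edgeSet.ncard ≤ (exInv k (P (2 * t))).toNat := by
      rw [← ENat.natCast_toNat (hfin k)] at h1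
      exact_mod_cast h1
    have h4 : ((turanGraph (t * q) t).edgeSet.ncard : ℝ) ≤ ((exInv k (P (2 * t))).toNat : ℝ) := by
      exact_mod_cast h3
    have htt' : 0 < t * (t - 1) := Nat.mul_pos (by omega) (by omega)
    have h5 : (k : ℝ) - 1 < ((q : ℝ) + 1) * (t * (t - 1)) := by
      have h6 := Nat.lt_div_mul_add (a := k - 1) htt'
      rw [← hq] at h6
      have h7 : ((k - 1 : ℕ) : ℝ) < (q : ℝ) * ((t : ℝ) * ((t - 1 : ℕ) : ℝ)) +
          (t : ℝ) * ((t - 1 : ℕ) : ℝ) := by exact_mod_cast h6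
      rw [Nat.cast_sub (by omega), Nat.cast_sub (by omega)] at h7
      push_cast at h7
      linarith
    set x : ℝ := (t : ℝ) * (t - 1) with hx
    have hx2 : 2 ≤ x := by rw [hx]; nlinarith
    have hq0 : (0 : ℝ) ≤ q := Nat.cast_nonneg q
    -- `q ≥ (k - 1) / x - 1`
    have h8 : (k : ℝ) - 1 - x < q * x := by linarith
    have h9 : (k : ℝ) ^ 2 - 4 * x * k ≤ (q * x) ^ 2 + x ^ 2 := by
      rcases le_or_gt 0 ((k : ℝ) - 1 - x) with h | h
      · have := mul_self_le_mul_self h h8.le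
        nlinarith
      · nlinarith [sq_nonneg (q * x)]
    have h10 : (k : ℝ) ^ 2 / (2 * x) - 2 * k - x / 2 ≤ x * q ^ 2 / 2 := by
      have hx0 : 0 < x := by linarith
      have e1 : (k : ℝ) ^ 2 / (2 * x) - 2 * k - x / 2 = (k ^ 2 - 4 * x * k - x ^ 2) / (2 * x) := by
        field_simp
        ring
      rw [e1, div_le_iff₀ (by positivity)]
      nlinarith
    have hk1' : (1 : ℝ) ≤ k := by
      have : 1 ≤ k := by omega
      exact_mod_cast this
    have hxt : x ≤ (t : ℝ) ^ 2 := by rw [hx]; nlinarith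
    have h11 : (k : ℝ) ^ 2 / (2 * x) - 2 * k - x / 2 - 1 ≤ ((exInv k (P (2 * t))).toNat : ℝ) := by
      linarith
    have h12 : (1 / (2 * x) - ε) * (k : ℝ) ^ 2 < (k : ℝ) ^ 2 / (2 * x) - 2 * k - x / 2 - 1 := by
      have e1 : (1 / (2 * x) - ε) * (k : ℝ) ^ 2 = (k : ℝ) ^ 2 / (2 * x) - (k * ε) * k := by ring
      rw [e1]
      have h13 : (3 + (t : ℝ) ^ 2) * k < (k * ε) * k := mul_lt_mul_of_pos_right hkε hkpos
      nlinarith
    have h14 : 1 / (2 * x) - ε < ((exInv k (P (2 * t))).toNat : ℝ) / (k : ℝ) ^ 2 := by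
      rw [lt_div_iff₀ (by positivity)]
      linarith
    have h15 : 1 / (2 * (t : ℝ) * (t - 1)) = 1 / (2 * x) := by rw [hx]; ring_nf
    rw [h15]
    linarith
  · -- upper bound
    have h1 := hk₀ k hk1
    have h2 : (exInv k (P (2 * t))).toNat ≤ ⌊(1 / (2 * t * (t - 1)) + ε / 2) * (k : ℝ) ^ 2⌋₊ := by
      rw [← ENat.natCast_toNat (hfin k)] at h1
      exact_mod_cast h1
    have h3 : ((exInv k (P (2 * t))).toNat : ℝ) ≤ (1 / (2 * t * (t - 1)) + ε / 2) * (k : ℝ) ^ 2 := by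
      refine le_trans ?_ (Nat.floor_le (by positivity))
      exact_mod_cast h2
    have h4 : ((exInv k (P (2 * t))).toNat : ℝ) / (k : ℝ) ^ 2 ≤ 1 / (2 * t * (t - 1)) + ε / 2 := by
      rw [div_le_iff₀ (by positivity)]
      exact h3
    linarith

end Pool.Agent.Results.MP_69c6fe_co.InverseTuranEvenPaths
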